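import Pool.Agent.Helper32.OIP.Goals

/-!
Lengths of alternating words in the tree group (packet OIP-R0).
-/

namespace Pool.Agent.Helper27.OIP

open MeasureTheory Pool.Agent.Helper32.OIP Pool.Agent.Helper58.Orb

section

variable {A : Type} [Group A] {S : Set A} {D : Type} (T : TreeData A S D)

theorem inv_inj {s t : D} (h : T.inv s = T.inv t) : s = t := by
  have := congrArg T.inv h
  rwa [T.inv_inv, T.inv_inv] at this

theorem gw_succ (s t : D) (k : ℕ) :
    gw T s t (k + 1) = T.dir (if Even k then s else T.inv t) * gw T s t k := rfl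

theorem len_gw_aux {s t : D} (hst : s ≠ t) (k : ℕ) :
    T.len (gw T s t k) = k ∧ T.len (gw T s t (k + 1)) = k + 1 := by
  induction k with
  | zero =>
    refine ⟨T.len_one, ?_⟩
    rw [gw_succ]
    change T.len (T.dir (if Even 0 then s else T.inv t) * 1) = 0 + 1
    rw [mul_one, T.len_dir]
  | succ k ih =>
    refine ⟨ih.2, ?_⟩
    have h1 := T.len_mul_le (if Even (k + 1) then s else T.inv t) (gw T s t (k + 1))
    rw [← gw_succ, ih.2] at h1
    have hne : T.inv (if Even k then s else T.inv t) ≠ (if Even (k + 1) then s else T.inv t) := by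
      by_cases hk : Even k
      · have hk' : ¬ Even (k + 1) := by
          rw [Nat.even_add_one]; exact not_not.2 hk
        rw [if_pos hk, if_neg hk']
        exact fun h => hst (inv_inj T h)
      · have hk' : Even (k + 1) := by
          rw [Nat.even_add_one]; exact hk
        rw [if_neg hk, if_pos hk', T.inv_inv]
        exact fun h => hst h.symm
    have h2 : T.dir (T.inv (if Even k then s else T.inv t)) * gw T s t (k + 1) = gw T s t k := by
      rw [gw_succ, T.dir_inv, inv_mul_cancel_left]
    rcases T.up (gw T s t (k + 1)) _ _ hne with h | h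
    · rw [h2, ih.1, ih.2] at h
      omega
    · rw [← gw_succ, ih.2] at h
      omega

theorem gw_mul_inv (s t : D) (j n : ℕ) :
    gw T s t (j + n) * (gw T s t j)⁻¹ =
      if Even j then gw T s t n else gw T (T.inv t) (T.inv s) n := by
  induction n with
  | zero =>
    rw [Nat.add_zero, mul_inv_cancel]
    split_ifs <;> rfl
  | succ n ih =>
    rw [← Nat.add_assoc, gw_succ, mul_assoc, ih]
    by_cases hj : Even j
    · rw [if_pos hj, if_pos hj, gw_succ]
      have : Even (j + n) ↔ Even n := by
        rw [Nat.even_add]
        exact ⟨fun h => h.1 hj, fun h => ⟨fun _ => h, fun _ => hj⟩⟩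
      simp only [this]
    · rw [if_neg hj, if_neg hj, gw_succ, T.inv_inv]
      by_cases hn : Even n
      · have : ¬ Even (j + n) := by
          rw [Nat.even_add]
          exact fun h => hj (h.2 hn)
        rw [if_neg this, if_pos hn]
      · have : Even (j + n) := by
          rw [Nat.even_add]
          exact ⟨fun h => absurd h hj, fun h => absurd h hn⟩
        rw [if_pos this, if_neg hn]

theorem len_inv_le (x : A) : T.len x⁻¹ ≤ T.len x := by
  obtain ⟨l, h1, h2, h3⟩ := T.exists_list x
  have h4 := T.len_le_of_list (l := (l.map fun a => a⁻¹).reverse) (by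
    intro a ha
    rw [List.mem_reverse, List.mem_map] at ha
    obtain ⟨b, hb, rfl⟩ := ha
    obtain ⟨s, rfl⟩ := T.exists_dir (h1 b hb)
    rw [← T.dir_inv]
    exact T.dir_mem _)
  rw [← List.prod_inv_reverse, h2, List.length_reverse, List.length_map, h3] at h4
  exact h4

theorem len_inv (x : A) : T.len x⁻¹ = T.len x := by
  refine le_antisymm (len_inv_le T x) ?_
  have := len_inv_le T x⁻¹
  rwa [inv_inv] at this

theorem len_mul (x y : A) : T.len (x * y) ≤ T.len x + T.len y := by
  obtain ⟨l, h1, h2, h3⟩ := T.exists_list x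
  obtain ⟨l', h1', h2', h3'⟩ := T.exists_list y
  have h4 := T.len_le_of_list (l := l ++ l') (by
    intro a ha
    rcases List.mem_append.1 ha with ha | ha
    · exact h1 a ha
    · exact h1' a ha)
  rw [List.prod_append, h2, h2', List.length_append, h3, h3'] at h4
  exact h4

end

theorem r0 : GoalR0 := by
  intro A _ S D T
  refine ⟨?_, len_inv T, len_mul T⟩
  intro s t hst i j hij
  obtain ⟨n, rfl⟩ := Nat.exists_eq_add_of_le hij
  rw [gw_mul_inv, Nat.add_sub_cancel_left]
  split_ifs
  · exact (len_gw_aux T hst n).1
  · exact (len_gw_aux T (fun h => hst (inv_inj T h).symm) n).1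

end Pool.Agent.Helper27.OIP
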